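import Pool.Agent.Q116.PI.Dec

/-!
For a `Π¹₁` predicate `P` and an index `r` one computes from `n` an index `g n` such that
`W_{g n}^X` is the join of `W_r^X` and a finite set if `P n` holds, and the join of `W_r^X` and `X'`
for some `X` (above any given set) otherwise.
-/

set_option autoImplicit false

namespace Pool.Agent.Q116.PI

open Encodable Pool.Agent.Helper227 Pool.Agent.H548R2.Post
open Nat.Partrec (Code)

/-- `P` is a `Π¹₁` predicate of numbers (in Kleene normal form). -/
def IsPi11 (P : ℕ → Prop) : Prop :=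
  ∃ R : ℕ → List ℕ → Prop, ComputablePred (fun x : ℕ × List ℕ => R x.1 x.2) ∧
    ∀ n, P n ↔ ∀ f : ℕ → ℕ, ∃ k, R n ((List.range k).map f)

/-- The change of the first digit. -/
def flip (X : ℕ → Bool) : ℕ → Bool := fun n => if n = 0 then !(X 0) else X n

/-- The condition on the numbers which are enumerated. -/
def Cond (R : ℕ → List ℕ → Prop) (n m : ℕ) (σ : List Bool) : Prop :=
  σ.head? = some true ∧ m ≤ (dec σ).length ∧ ∀ k < m + 1, ¬ R n ((dec σ).take k)

/-- The relation which defines `W_{g n}^X`. -/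
def Ev (R : ℕ → List ℕ → Prop) (r : ℕ) (n : ℕ) (σ : List Bool) (a : ℕ) : Prop :=
  (∃ m, a = 2 * m ∧ ((Denumerable.ofNat Code r).eval (encode (σ, m))).Dom) ∨
    ∃ m, a = 2 * m + 1 ∧ (∃ k, ((Denumerable.ofNat Code m).eval (encode (σ.take k, m))).Dom) ∧
      Cond R n m σ

theorem ev_s1 {R : ℕ → List ℕ → Prop} (hR : ComputablePred (fun x : ℕ × List ℕ => R x.1 x.2))
    (r : ℕ) : S1 fun x : ℕ × List Bool × ℕ => Ev R r x.1 x.2.1 x.2.2 := by
  have hnR : S1 fun x : ℕ × List ℕ => ¬ R x.1 x.2 := S1.of_re hR.not.to_re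
  refine S1.or (S1.ex (S1.and ?_ ?_)) (S1.ex (S1.and ?_ (S1.and (S1.ex ?_) (S1.and ?_ (S1.and ?_
    (S1.all_lt ?_ ?_))))))
  · refine S1.of_prim (Primrec.eq.comp (Primrec.snd.comp (Primrec.snd.comp Primrec.fst)) ?_)
    exact Primrec.nat_mul.comp (Primrec.const 2) Primrec.snd
  · refine s1_eval.comp (f := fun x : (ℕ × List Bool × ℕ) × ℕ =>
      (Denumerable.ofNat Code r, encode (x.1.2.1, x.2))) ?_
    exact (Primrec.const _).pair (Primrec.encode.comp
      ((Primrec.fst.comp (Primrec.snd.comp Primrec.fst)).pair Primrec.snd))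
  · refine S1.of_prim (Primrec.eq.comp (Primrec.snd.comp (Primrec.snd.comp Primrec.fst)) ?_)
    exact Primrec.succ.comp (Primrec.nat_mul.comp (Primrec.const 2) Primrec.snd)
  · refine s1_eval.comp (f := fun x : ((ℕ × List Bool × ℕ) × ℕ) × ℕ =>
      (Denumerable.ofNat Code x.1.2, encode (x.1.1.2.1.take x.2, x.1.2))) ?_
    refine ((Primrec.ofNat Code).comp (Primrec.snd.comp Primrec.fst)).pair (Primrec.encode.comp
      (Primrec.pair ?_ (Primrec.snd.comp Primrec.fst)))
    exact Primrec.list_take.comp Primrec.snd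
      (Primrec.fst.comp (Primrec.snd.comp (Primrec.fst.comp Primrec.fst)))
  · refine S1.of_prim (Primrec.eq.comp (Primrec.list_head?.comp
      (Primrec.fst.comp (Primrec.snd.comp Primrec.fst))) (Primrec.const (some true)))
  · exact S1.of_prim (Primrec.nat_le.comp Primrec.snd (Primrec.list_length.comp
      (dec_prim.comp (Primrec.fst.comp (Primrec.snd.comp Primrec.fst)))))
  · refine hnR.comp (f := fun x : ((ℕ × List Bool × ℕ) × ℕ) × ℕ =>
      (x.1.1.1, (dec x.1.1.2.1).take x.2)) ?_
    refine (Primrec.fst.comp (Primrec.fst.comp Primrec.fst)).pair (Primrec.list_take.comp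
      Primrec.snd (dec_prim.comp
      (Primrec.fst.comp (Primrec.snd.comp (Primrec.fst.comp Primrec.fst)))))
  · exact Primrec.succ.comp Primrec.snd

theorem exists_index {R : ℕ → List ℕ → Prop}
    (hR : ComputablePred (fun x : ℕ × List ℕ => R x.1 x.2)) (r : ℕ) :
    ∃ g : ℕ → ℕ, Computable g ∧ ∀ n X a, a ∈ WE X (g n) ↔ ∃ s, Ev R r n (pre X s) a := by
  obtain ⟨c, hc⟩ := Nat.Partrec.Code.exists_code.1 (ev_s1 hR r).re
  refine ⟨fun n => encode (Code.curry c n), ?_, fun n X a => ?_⟩
  · have h2 : Primrec fun a : ℕ => Code.curry c a :=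
      Nat.Partrec.Code.primrec₂_curry.comp (Primrec.const c) Primrec.id
    exact (Primrec.encode.comp h2).to_comp
  · simp only [WE, Set.mem_ofPred_eq, Denumerable.ofNat_encode, Nat.Partrec.Code.eval_curry]
    refine exists_congr fun k => ?_
    have h1 : Nat.pair n (encode ((List.range k).map X, a)) =
        encode (n, ((List.range k).map X, a)) := rfl
    rw [h1, hc]
    simp [Part.assert, pre]

variable {R : ℕ → List ℕ → Prop} {n m r : ℕ} {X : ℕ → Bool}

theorem cond_mono {s t : ℕ} (h : Cond R n m (pre X s)) (hst : s ≤ t) : Cond R n m (pre X t) := by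
  obtain ⟨h1, h2, h3⟩ := h
  have hp := pre_prefix X hst
  have hd := dec_mono hp
  refine ⟨?_, h2.trans hd.length_le, fun k hk => ?_⟩
  · obtain ⟨ρ, hρ⟩ := hp
    rw [← hρ, List.head?_append, h1]
    rfl
  · obtain ⟨ρ, hρ⟩ := hd
    rw [← hρ, List.take_append_of_le_length (by omega)]
    exact h3 k hk

theorem even_iff {g : ℕ → ℕ} (hg : ∀ n X a, a ∈ WE X (g n) ↔ ∃ s, Ev R r n (pre X s) a) :
    2 * m ∈ WE X (g n) ↔ m ∈ WE X r := by
  rw [hg]
  constructor
  · rintro ⟨s, ⟨m', h1, h2⟩ | ⟨m', h1, _⟩⟩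
    · obtain rfl : m = m' := by omega
      exact ⟨s, h2⟩
    · omega
  · rintro ⟨s, hs⟩
    exact ⟨s, Or.inl ⟨m, rfl, hs⟩⟩

theorem odd_iff {g : ℕ → ℕ} (hg : ∀ n X a, a ∈ WE X (g n) ↔ ∃ s, Ev R r n (pre X s) a) :
    2 * m + 1 ∈ WE X (g n) ↔ m ∈ WE X m ∧ ∃ s, Cond R n m (pre X s) := by
  rw [hg]
  constructor
  · rintro ⟨s, ⟨m', h1, h2⟩ | ⟨m', h1, ⟨k, hk⟩, h3⟩⟩
    · omega
    · obtain rfl : m = m' := by omega
      refine ⟨?_, s, h3⟩
      rcases le_total k s with h | h
      · rw [take_pre X s k h] at hk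
        exact ⟨k, hk⟩
      · rw [List.take_of_length_le (by simpa [pre] using h)] at hk
        exact ⟨s, hk⟩
  · rintro ⟨⟨k, hk⟩, s, hs⟩
    refine ⟨max k s, Or.inr ⟨m, rfl, ⟨k, ?_⟩, cond_mono hs (le_max_right _ _)⟩⟩
    rw [take_pre X _ k (le_max_left _ _)]
    exact hk

/-- If `P n` holds, or if the first digit is `false`, only finitely many numbers satisfy the
condition. -/
theorem cond_finite (h : (∀ f : ℕ → ℕ, ∃ k, R n ((List.range k).map f)) ∨ X 0 = false) :
    ∃ M, ∀ m s, Cond R n m (pre X s) → m < M := by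
  rcases h with h | h
  · by_cases hb : ∃ M, ∀ s, (dec (pre X s)).length ≤ M
    · obtain ⟨M, hM⟩ := hb
      exact ⟨M + 1, fun m s hs => by have := hM s; have := hs.2.1; omega⟩
    · push Not at hb
      choose s hs using hb
      have hget : ∀ t k, k < (dec (pre X t)).length →
          (dec (pre X t)).getD k 0 = (dec (pre X (s k))).getD k 0 := by
        intro t k hk
        rcases le_total t (s k) with h1 | h1
        · obtain ⟨ρ, hρ⟩ := dec_mono (pre_prefix X h1)
          rw [← hρ, List.getD_append _ _ _ _ hk]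
        · obtain ⟨ρ, hρ⟩ := dec_mono (pre_prefix X h1)
          rw [← hρ, List.getD_append _ _ _ _ (hs k)]
      obtain ⟨k, hk⟩ := h fun k => (dec (pre X (s k))).getD k 0
      refine ⟨k, fun m t ht => ?_⟩
      by_contra hmk
      refine ht.2.2 k (by omega) ?_
      have hlen : k ≤ (dec (pre X t)).length := by have := ht.2.1; omega
      have heq : (dec (pre X t)).take k =
          (List.range k).map fun k => (dec (pre X (s k))).getD k 0 := by
        refine List.ext_getElem (by simp [hlen]) fun i h1 h2 => ?_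
        simp only [List.length_map, List.length_range] at h2
        rw [List.getElem_take, List.getElem_map, List.getElem_range, ← hget t i (by omega),
          List.getD_eq_getElem _ _ (by omega)]
      rw [heq]
      exact hk
  · refine ⟨0, fun m s hs => ?_⟩
    exfalso
    have h1 := hs.1
    cases s with
    | zero => simp [pre] at h1
    | succ s =>
      have : (pre X (s + 1)).head? = some (X 0) := by
        rw [List.head?_eq_getElem?]
        exact pre_getElem? X _ _ (by omega)
      rw [this, h] at h1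
      cases h1

/-- The join with a finite set. -/
theorem tLe_join_fin {A B : ℕ → Bool} {L : List Bool} (h0 : ∀ m, A (2 * m) = B m)
    (h1 : ∀ m, A (2 * m + 1) = L.getD m false) : TLe A B := by
  rw [tLe_iff_SI]
  have e1 : SI B fun x : ℕ × Bool => B (x.1 / 2) = x.2 :=
    SI.query.comp (f := fun x : ℕ × Bool => (x.1 / 2, x.2))
      ((Primrec.nat_div.comp Primrec.fst (Primrec.const 2)).pair Primrec.snd)
  have e2 : SI B fun x : ℕ × Bool => L.getD (x.1 / 2) false = x.2 :=
    SI.of_prim (Primrec.eq.comp ((Primrec.list_getD false).comp (Primrec.const L)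
      (Primrec.nat_div.comp Primrec.fst (Primrec.const 2))) Primrec.snd)
  have e3 : ∀ j : ℕ, SI B fun x : ℕ × Bool => x.1 % 2 = j := fun j =>
    SI.of_prim (Primrec.eq.comp (Primrec.nat_mod.comp Primrec.fst (Primrec.const 2))
      (Primrec.const j))
  refine (SI.or (SI.and (e3 0) e1) (SI.and (e3 1) e2)).of_eq fun x => ?_
  obtain ⟨a, b⟩ := x
  rcases Nat.even_or_odd' a with ⟨m, rfl | rfl⟩
  · have e4 : 2 * m / 2 = m := by omega
    have e5 : 2 * m % 2 = 0 := by omega
    simp only [h0, e4, e5]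
    simp
  · have e4 : (2 * m + 1) / 2 = m := by omega
    have e5 : (2 * m + 1) % 2 = 1 := by omega
    simp only [h1, e4, e5]
    simp

theorem tLe_flip (X : ℕ → Bool) : TLe (flip X) X := by
  rw [tLe_iff_SI]
  have e1 : SI X fun x : ℕ × Bool => X x.1 = x.2 := SI.query
  have e2 : SI X fun x : ℕ × Bool => X x.1 = !x.2 :=
    SI.query.comp (f := fun x : ℕ × Bool => (x.1, !x.2))
      (Primrec.fst.pair (Primrec.not.comp Primrec.snd))
  have e3 : SI X fun x : ℕ × Bool => x.1 = 0 :=
    SI.of_prim (Primrec.eq.comp Primrec.fst (Primrec.const 0))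
  have e4 : SI X fun x : ℕ × Bool => ¬ x.1 = 0 :=
    SI.of_prim (Primrec.eq.comp Primrec.fst (Primrec.const 0)).not
  refine (SI.or (SI.and e3 e2) (SI.and e4 e1)).of_eq fun x => ?_
  obtain ⟨a, b⟩ := x
  unfold flip
  by_cases ha : a = 0
  · subst ha
    cases X 0 <;> cases b <;> simp
  · simp [ha]

theorem flip_flip (X : ℕ → Bool) : flip (flip X) = X := by
  funext n
  unfold flip
  by_cases h : n = 0
  · subst h
    simp
  · simp [h]

theorem tLe_flip' (X : ℕ → Bool) : TLe X (flip X) := by
  have := tLe_flip (flip X)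
  rwa [flip_flip] at this

/-- **The main lemma.** -/
theorem core {P : ℕ → Prop} (hP : IsPi11 P) (r : ℕ) : ∃ g : ℕ → ℕ, Computable g ∧ ∀ n,
    (P n → ∀ X, TLe (chr (WE X (g n))) (chr (WE X r)) ∧
      TLe (chr (WE X r)) (chr (WE X (g n)))) ∧
    (¬ P n → ∀ z : ℕ → Bool, ∃ X, TLe z X ∧ TLe (jump X) (chr (WE X (g n))) ∧
      TLe (chr (WE (flip X) (g n))) (chr (WE (flip X) r)) ∧
      TLe (chr (WE (flip X) r)) (chr (WE (flip X) (g n)))) := by
  obtain ⟨R, hR, hPR⟩ := hP
  obtain ⟨g, hg, hW⟩ := exists_index hR r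
  have heven : ∀ n X m, chr (WE X (g n)) (2 * m) = chr (WE X r) m := by
    intro n X m
    unfold chr
    congr 1
    exact propext (even_iff hW)
  have hback : ∀ n X, TLe (chr (WE X r)) (chr (WE X (g n))) := by
    intro n X
    refine tLe_of_computable (f := fun m => 2 * m) ?_ fun m => (heven n X m).symm
    exact (Primrec.nat_mul.comp (Primrec.const 2) Primrec.id).to_comp
  have hfin : ∀ n X, ((∀ f : ℕ → ℕ, ∃ k, R n ((List.range k).map f)) ∨ X 0 = false) →
      TLe (chr (WE X (g n))) (chr (WE X r)) := by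
    intro n X h
    obtain ⟨M, hM⟩ := cond_finite h
    refine tLe_join_fin (L := (List.range M).map fun m => chr (WE X (g n)) (2 * m + 1))
      (heven n X) fun m => ?_
    by_cases hm : m < M
    · rw [List.getD_eq_getElem _ _ (by simpa using hm)]
      simp
    · rw [List.getD_eq_default _ _ (by simpa using hm)]
      unfold chr
      rw [decide_eq_false_iff_not, odd_iff hW]
      rintro ⟨_, s, hs⟩
      exact hm (hM m s hs)
  refine ⟨g, hg, fun n => ⟨fun hn X => ⟨hfin n X (Or.inl ((hPR n).1 hn)), hback n X⟩,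
    fun hn z => ?_⟩⟩
  rw [hPR] at hn
  push Not at hn
  obtain ⟨f, hf⟩ := hn
  refine ⟨orac f z, ?_, ?_, hfin n _ (Or.inr ?_), hback n _⟩
  · exact tLe_of_computable (f := fun k => 2 * k + 2)
      (Primrec.succ.comp (Primrec.succ.comp (Primrec.nat_mul.comp (Primrec.const 2)
        Primrec.id))).to_comp fun k => (orac_even f z k).symm
  · refine tLe_of_computable (f := fun m => 2 * m + 1)
      (Primrec.succ.comp (Primrec.nat_mul.comp (Primrec.const 2) Primrec.id)).to_comp fun m => ?_
    rw [Bool.eq_iff_iff, jump_eq_true]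
    unfold chr
    simp only [decide_eq_true_eq]
    rw [odd_iff hW]
    refine ⟨fun h => ⟨h, 2 * ends f m + 1, ?_, ?_, fun k hk => ?_⟩, fun h => h.1⟩
    · rw [List.head?_eq_getElem?, pre_getElem? _ _ _ (by omega)]
      rfl
    · rw [dec_orac, ini_length]
    · rw [dec_orac]
      have h1 : (ini f m).take k = (List.range k).map f := by
        unfold ini
        rw [← List.map_take, List.take_range]
        congr 2
        omega
      rw [h1]
      exact hf k
  · unfold flip orac
    simp

end Pool.Agent.Q116.PI
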