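import Pool.Agent.H548R2.Post.Main

/-!
Decoding of an infinite sequence of numbers from an oracle.
-/

set_option autoImplicit false

namespace Pool.Agent.Q116.PI

open Encodable Pool.Agent.Helper227

/-- One step of the decoding: the state consists of the decoded numbers, of the length of the
current block of zeros, and of the parity of the position; the digits at the positions of odd
parity are ignored. -/
def dstep (s : List ℕ × ℕ × Bool) (b : Bool) : List ℕ × ℕ × Bool :=
  if s.2.2 = true then (s.1, s.2.1, false)
  else if b = true then (s.1 ++ [s.2.1], 0, true) else (s.1, s.2.1 + 1, true)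

/-- The numbers decoded from a finite string; the first digit is ignored. -/
def dec (σ : List Bool) : List ℕ := (σ.tail.foldl dstep ([], 0, false)).1

theorem dstep_prim : Primrec₂ dstep := by
  have h1 : Primrec fun p : (List ℕ × ℕ × Bool) × Bool => p.1.1 := Primrec.fst.comp Primrec.fst
  have h2 : Primrec fun p : (List ℕ × ℕ × Bool) × Bool => p.1.2.1 :=
    Primrec.fst.comp (Primrec.snd.comp Primrec.fst)
  have h3 : Primrec fun p : (List ℕ × ℕ × Bool) × Bool => p.1.2.2 :=
    Primrec.snd.comp (Primrec.snd.comp Primrec.fst)
  refine Primrec.ite (Primrec.eq.comp h3 (Primrec.const true)) ?_ (Primrec.ite (Primrec.eq.comp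
    Primrec.snd (Primrec.const true)) ?_ ?_)
  · exact h1.pair (h2.pair (Primrec.const false))
  · exact (Primrec.list_concat.comp h1 h2).pair ((Primrec.const 0).pair (Primrec.const true))
  · exact h1.pair ((Primrec.succ.comp h2).pair (Primrec.const true))

theorem dec_prim : Primrec dec := by
  refine Primrec.fst.comp ?_
  exact Primrec.list_foldl (Primrec.list_tail.comp Primrec.id)
    (Primrec.const (([] : List ℕ), 0, false))
    (h := fun _ p => dstep p.1 p.2)
    (dstep_prim.comp (Primrec.fst.comp Primrec.snd) (Primrec.snd.comp Primrec.snd))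

theorem dstep_mono (s : List ℕ × ℕ × Bool) (b : Bool) : s.1 <+: (dstep s b).1 := by
  unfold dstep
  split_ifs
  · exact List.prefix_rfl
  · exact List.prefix_append _ _
  · exact List.prefix_rfl

theorem fold_mono (l : List Bool) (s : List ℕ × ℕ × Bool) : s.1 <+: (l.foldl dstep s).1 := by
  induction l generalizing s with
  | nil => exact List.prefix_rfl
  | cons b l ih => exact (dstep_mono s b).trans (ih _)

theorem dec_mono {σ τ : List Bool} (h : σ <+: τ) : dec σ <+: dec τ := by
  unfold dec
  obtain ⟨ρ, rfl⟩ := h
  cases σ with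
  | nil => exact List.nil_prefix
  | cons b σ =>
    rw [List.cons_append, List.tail_cons, List.tail_cons, List.foldl_append]
    exact fold_mono _ _

/-- The initial segment of a sequence of numbers. -/
def ini (f : ℕ → ℕ) (k : ℕ) : List ℕ := (List.range k).map f

theorem ini_length (f : ℕ → ℕ) (k : ℕ) : (ini f k).length = k := by simp [ini]

theorem ini_succ (f : ℕ → ℕ) (k : ℕ) : ini f (k + 1) = ini f k ++ [f k] := by
  unfold ini
  rw [List.range_succ, List.map_append, List.map_singleton]

/-- The end of the block of the number `m`. -/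
def ends (f : ℕ → ℕ) (m : ℕ) : ℕ := ∑ i ∈ Finset.range m, (f i + 1)

theorem ends_succ (f : ℕ → ℕ) (m : ℕ) : ends f (m + 1) = ends f m + (f m + 1) :=
  Finset.sum_range_succ _ _

theorem ends_mono (f : ℕ → ℕ) {m n : ℕ} (h : m ≤ n) : ends f m ≤ ends f n :=
  Finset.sum_le_sum_of_subset (by simpa using h)

open Classical in
/-- The digits of the code of a sequence of numbers. -/
noncomputable def code (f : ℕ → ℕ) : ℕ → Bool := fun k => decide (∃ m, k + 1 = ends f (m + 1))

/-- The oracle with the first digit `true`, with the code of `f` at the odd positions and `z` at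
the positive even positions. -/
noncomputable def orac (f : ℕ → ℕ) (z : ℕ → Bool) : ℕ → Bool := fun n =>
  if n = 0 then true else if n % 2 = 1 then code f (n / 2) else z (n / 2 - 1)

theorem orac_odd (f : ℕ → ℕ) (z : ℕ → Bool) (k : ℕ) : orac f z (2 * k + 1) = code f k := by
  unfold orac
  rw [if_neg (by omega), if_pos (by omega)]
  congr 1
  omega

theorem orac_even (f : ℕ → ℕ) (z : ℕ → Bool) (k : ℕ) : orac f z (2 * k + 2) = z k := by
  unfold orac
  rw [if_neg (by omega), if_neg (by omega)]
  congr 1
  omega

/-- The state after `2 t + 1` digits. -/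
def stt (X : ℕ → Bool) (t : ℕ) : List ℕ × ℕ × Bool :=
  (pre X (2 * t + 1)).tail.foldl dstep ([], 0, false)

theorem stt_zero (X : ℕ → Bool) : stt X 0 = ([], 0, false) := by
  simp [stt, pre]

theorem stt_succ (X : ℕ → Bool) (t : ℕ) : stt X (t + 1) =
    dstep (dstep (stt X t) (X (2 * t + 1))) (X (2 * t + 2)) := by
  unfold stt
  have h0 : pre X (2 * (t + 1) + 1) = pre X (2 * t + 1) ++ [X (2 * t + 1)] ++ [X (2 * t + 2)] := by
    rw [show 2 * (t + 1) + 1 = (2 * t + 1) + 1 + 1 by ring, pre_succ, pre_succ]
  have h1 : ∃ b l, pre X (2 * t + 1) = b :: l := by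
    cases h : pre X (2 * t + 1) with
    | nil =>
      have := congrArg List.length h
      simp [pre] at this
    | cons b l => exact ⟨b, l, rfl⟩
  obtain ⟨b, l, hl⟩ := h1
  rw [h0, hl]
  simp only [List.cons_append, List.tail_cons, List.foldl_append, List.foldl_cons, List.foldl_nil]

theorem code_false {f : ℕ → ℕ} {m j : ℕ} (h : j < f m) : code f (ends f m + j) = false := by
  unfold code
  rw [decide_eq_false_iff_not]
  rintro ⟨n, hn⟩
  rcases lt_or_ge n m with h1 | h1
  · have := ends_mono f (show n + 1 ≤ m by omega)
    omega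
  · have h2 := ends_mono f (show m + 1 ≤ n + 1 by omega)
    rw [ends_succ] at h2
    omega

theorem code_true (f : ℕ → ℕ) (m : ℕ) : code f (ends f m + f m) = true := by
  classical
  unfold code
  simp only [decide_eq_true_eq]
  exact ⟨m, by rw [ends_succ]; ring⟩

theorem stt_orac (f : ℕ → ℕ) (z : ℕ → Bool) (m : ℕ) :
    stt (orac f z) (ends f m) = (ini f m, 0, false) := by
  induction m with
  | zero => rw [show ends f 0 = 0 from rfl, stt_zero]; rfl
  | succ m ih =>
    have h1 : ∀ j ≤ f m, stt (orac f z) (ends f m + j) = (ini f m, j, false) := by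
      intro j hj
      induction j with
      | zero => exact ih
      | succ j ihj =>
        rw [← add_assoc, stt_succ, ihj (by omega), orac_odd, code_false (by omega)]
        rfl
    rw [ends_succ, ← add_assoc, stt_succ, h1 _ le_rfl, orac_odd, code_true, ini_succ]
    rfl

theorem dec_orac (f : ℕ → ℕ) (z : ℕ → Bool) (m : ℕ) :
    dec (pre (orac f z) (2 * ends f m + 1)) = ini f m := by
  have := stt_orac f z m
  unfold stt at this
  unfold dec
  rw [this]

end Pool.Agent.Q116.PI
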