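import Pool.Agent.Q116.PI.Core

/-!
A `Π¹₁`-hard set is not `Σ¹₁`.
-/

set_option autoImplicit false

namespace Pool.Agent.Q116.PI

open Encodable Pool.Agent.Helper227 Pool.Agent.H548R2.Post
open Nat.Partrec (Code)
open Nat.Partrec.Code (evaln)

/-- All sets between `S` and `T` are `Π¹₁`-hard: every `Π¹₁` predicate is reduced to them by one
computable function. -/
def Hard (S T : Set ℕ) : Prop :=
  S ⊆ T ∧ ∀ P : ℕ → Prop, IsPi11 P → ∃ g : ℕ → ℕ, Computable g ∧
    ∀ n, (P n → g n ∈ S) ∧ (¬ P n → g n ∉ T)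

/-- The diagonal relation. -/
def DR (n : ℕ) (σ : List ℕ) : Prop :=
  ∃ j < σ.length + 1,
    (evaln σ.length (Denumerable.ofNat Code n) (encode (n, σ.take j))).isSome = true

theorem dr_comp : ComputablePred fun x : ℕ × List ℕ => DR x.1 x.2 := by
  refine PrimrecPred.computablePred ?_
  refine PP.ex_lt (α := ℕ × List ℕ) (p := fun x j => (evaln x.2.length
    (Denumerable.ofNat Code x.1) (encode (x.1, x.2.take j))).isSome = true)
    (f := fun x => x.2.length + 1) ?_ (Primrec.succ.comp (Primrec.list_length.comp Primrec.snd))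
  refine Primrec.eq.comp (Primrec.option_isSome.comp ?_) (Primrec.const true)
  refine Nat.Partrec.Code.primrec_evaln.comp (g := fun y : (ℕ × List ℕ) × ℕ =>
    ((y.1.2.length, Denumerable.ofNat Code y.1.1), encode (y.1.1, y.1.2.take y.2))) ?_
  refine Primrec.pair (Primrec.pair (Primrec.list_length.comp (Primrec.snd.comp Primrec.fst))
    ((Primrec.ofNat Code).comp (Primrec.fst.comp Primrec.fst))) (Primrec.encode.comp
    (Primrec.pair (Primrec.fst.comp Primrec.fst) ?_))
  exact Primrec.list_take.comp Primrec.snd (Primrec.snd.comp Primrec.fst)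

theorem dr_iff (n : ℕ) (f : ℕ → ℕ) : (∃ k, DR n ((List.range k).map f)) ↔
    ∃ j, ((Denumerable.ofNat Code n).eval (encode (n, (List.range j).map f))).Dom := by
  have htake : ∀ j k, j ≤ k → ((List.range k).map f).take j = (List.range j).map f := by
    intro j k h
    rw [← List.map_take, List.take_range]
    congr 2
    omega
  constructor
  · rintro ⟨k, j, hj, h⟩
    rw [List.length_map, List.length_range] at hj h
    rw [htake j k (by omega)] at h
    obtain ⟨v, hv⟩ := Option.isSome_iff_exists.1 h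
    exact ⟨j, Part.dom_iff_mem.2 ⟨v, Nat.Partrec.Code.evaln_sound hv⟩⟩
  · rintro ⟨j, h⟩
    obtain ⟨v, hv⟩ := Part.dom_iff_mem.1 h
    obtain ⟨t, ht⟩ := Nat.Partrec.Code.evaln_complete.1 hv
    refine ⟨max j t, j, ?_, ?_⟩
    · rw [List.length_map, List.length_range]
      omega
    · rw [List.length_map, List.length_range, htake j _ (le_max_left _ _)]
      exact Option.isSome_iff_exists.2
        ⟨v, Nat.Partrec.Code.evaln_mono (le_max_right _ _) ht⟩

/-- A set `U` between `S` and `T` is not `Σ¹₁`. -/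
theorem Hard.not_sigma {S T U : Set ℕ} (h : Hard S T) (h1 : S ⊆ U) (h2 : U ⊆ T) :
    ¬ IsPi11 fun e => e ∉ U := by
  rintro ⟨R, hR, hU⟩
  obtain ⟨g, hg, hgn⟩ := h.2 (fun n => ∀ f : ℕ → ℕ, ∃ k, DR n ((List.range k).map f))
    ⟨DR, dr_comp, fun n => Iff.rfl⟩
  have hre : REPred fun x : ℕ × List ℕ => R (g x.1) x.2 := by
    have h3 : ComputablePred fun x : ℕ × List ℕ => R (g x.1) x.2 := by
      obtain ⟨d, hd⟩ := hR
      refine ⟨fun x => d (g x.1, x.2), ?_⟩
      exact hd.comp ((hg.comp Computable.fst).pair Computable.snd)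
    exact h3.to_re
  obtain ⟨c, hc⟩ := Nat.Partrec.Code.exists_code.1 hre
  have hdom : ∀ n σ, R (g n) σ ↔
      ((Denumerable.ofNat Code (encode c)).eval (encode (n, σ))).Dom := by
    intro n σ
    rw [Denumerable.ofNat_encode, hc]
    simp [Part.assert]
  set m := encode c with hm
  have key : (∀ f : ℕ → ℕ, ∃ k, DR m ((List.range k).map f)) ↔ g m ∉ U := by
    refine Iff.trans ?_ (hU (g m)).symm
    refine forall_congr' fun f => ?_
    rw [dr_iff]
    exact exists_congr fun j => (hdom m _).symm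
  by_cases hD : ∀ f : ℕ → ℕ, ∃ k, DR m ((List.range k).map f)
  · exact key.1 hD (h1 ((hgn m).1 hD))
  · exact hD (key.2 fun hu => (hgn m).2 hD (h2 hu))

end Pool.Agent.Q116.PI
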